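import Pool.Agent.W_7d29a1_h95g.TubeProb

/-!
THE TUBE LEMMA (STORM G+, track G, D5 (3) of helper85): a fixed end point is reached inside a strip, no chaining.
-/

namespace Pool.Agent.W_7d29a1_h95g

open MeasureTheory ProbabilityTheory Filter Topology Pool.Agent.W_7d29a1_F

variable {μ : Measure ℝ} [IsProbabilityMeasure μ] {s : ℝ}

theorem real_union3 {P1 P2 P3 P4 P5 Q : Set Env} (h : Qᶜ ⊆ P1 ∪ P2 ∪ P3 ∪ P4 ∪ P5) (hQ : MeasurableSet Q)
    {p1 p2 p3 p4 p5 : ℝ} (h1 : (law μ).real P1 ≤ p1) (h2 : (law μ).real P2 ≤ p2) (h3 : (law μ).real P3 ≤ p3)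
    (h4 : (law μ).real P4 ≤ p4) (h5 : (law μ).real P5 ≤ p5) :
    1 - (p1 + p2 + p3 + p4 + p5) ≤ (law μ).real Q := by
  have e1 := probReal_compl_eq_one_sub (μ := law μ) hQ
  have e2 : (law μ).real Qᶜ ≤ (law μ).real (P1 ∪ P2 ∪ P3 ∪ P4 ∪ P5) := measureReal_mono h
  have e3 := measureReal_union_le (μ := law μ) (P1 ∪ P2 ∪ P3 ∪ P4) P5
  have e4 := measureReal_union_le (μ := law μ) (P1 ∪ P2 ∪ P3) P4
  have e5 := measureReal_union_le (μ := law μ) (P1 ∪ P2) P3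
  have e6 := measureReal_union_le (μ := law μ) P1 P2
  linarith

/-- THE TUBE LEMMA, free constants. `lm`, `lp` are the lines, `z = (n, y)` is the end point; the lines are continued
to the time `N` and started at the time `-M`. -/
theorem tube_abs (hμ : Pool.Agent.W_7d29a1_h47.EM μ) {lm lp : ℤ → ℤ} (hm : IsLine lm) (hp : IsLine lp)
    (hm0 : lm 0 < 0) (hp0 : 0 < lp 0) {n N M : ℕ} (hnN : n ≤ N) {y : ℤ} (hy0 : 0 ≤ y) (hy1 : y ≤ n)
    {A Y G B ε : ℝ} (hA0 : 0 < A)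
    (t1 : ∀ k < n, epp μ s (N - (k + 1)) (lp N - lp ((k + 1 : ℕ) : ℤ)) ≤ A)
    (t2 : ∀ k < n, epp μ s (N - (k + 1)) (lm N - lm ((k + 1 : ℕ) : ℤ)) ≤ A)
    (t3 : ∀ k < n, epp μ s (M + (k + 1)) (lp ((k + 1 : ℕ) : ℤ) - lp (-M)) ≤ A)
    (t4 : ∀ k < n, epp μ s (M + (k + 1)) (lm ((k + 1 : ℕ) : ℤ) - lm (-M)) ≤ A)
    (r1 : 0 ≤ lm N) (r2 : lm N ≤ N) (m1 : epp μ s N (lm N) ≤ A)
    (r3 : 0 ≤ y - lp (-M)) (r4 : y - lp (-M) ≤ ((M + n : ℕ) : ℤ)) (m2 : epp μ s (M + n) (y - lp (-M)) ≤ A)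
    (m3 : epp μ s n y ≤ A)
    (x1 : (law μ).real {η | X μ s η 0 N (lp N) ≤ Y + 2 * A} ≤ ε)
    (x2 : (law μ).real {η | X μ s η 0 (M + n) (y - lm (-M)) ≤ Y + 2 * A} ≤ ε)
    (hG : A < G) (hB : 0 < B) (hY : G + B + Real.log (4 * n) ≤ Y) :
    1 - (2 * ε + 2 * ε + A / (G - A) + A / (G - A) + A / B) ≤
      (law μ).real {η | W μ s η 0 n y ≤ 2 * WR μ s (Tb lm lp) η 0 n y} := by
  have q1 := (hit_fwd (μ := μ) (s := s) hμ hp hnN (Y := Y) hA0 t1).trans (mul_le_mul_of_nonneg_left x1 (by norm_num))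
  have q2 := (hit_bwd (μ := μ) (s := s) hμ hm (n := n) (y := y) (Y := Y) hA0 t4).trans
    (mul_le_mul_of_nonneg_left x2 (by norm_num))
  have q3 := luck_fwd (μ := μ) (s := s) hμ hm hnN (G := G) t2 r1 r2 m1
  have q4 := luck_bwd (μ := μ) (s := s) hμ hp (n := n) (G := G) t3 r3 r4 m2
  have hGA : 0 < G - A := by linarith
  rw [mul_comm, ← le_div_iff₀ hGA] at q3 q4
  have hmX : MeasurableSet {η | X μ s η 0 n y ≤ B} :=
    measurableSet_le (measurable_X (μ := μ) (s := s) 0 n y) measurable_const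
  have q5 : (law μ).real {η | X μ s η 0 n y ≤ B}ᶜ ≤ A / B := by
    have h := half_X (μ := μ) (s := s) hμ 0 hy0 hy1 m3 hB
    rw [probReal_compl_eq_one_sub hmX]
    linarith
  refine real_union3 ?_ ?_ q1 q2 q3 q4 q5
  · intro η hη
    by_contra hc
    apply hη
    simp only [Set.mem_union, not_or] at hc
    obtain ⟨⟨⟨⟨c1, c2⟩, c3⟩, c4⟩, c5⟩ := hc
    have c1' : ∀ k < n, W μ s η 0 (k + 1) (lp ((k + 1 : ℕ) : ℤ)) ≤ Real.exp (-Y) := by
      intro k hk
      by_contra h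
      exact c1 ⟨k, hk, (not_le.1 h).le⟩
    have c2' : ∀ k < n, W μ s η (((k + 1 : ℕ) : ℤ), lm ((k + 1 : ℕ) : ℤ)) (n - (k + 1)) (y - lm ((k + 1 : ℕ) : ℤ)) ≤
        Real.exp (-Y) := by
      intro k hk
      by_contra h
      exact c2 ⟨k, hk, (not_le.1 h).le⟩
    have c3' : ∀ k < n, W μ s η 0 (k + 1) (lm ((k + 1 : ℕ) : ℤ)) ≤ Real.exp G := by
      intro k hk
      by_contra h
      exact c3 ⟨k, hk, (not_le.1 h).le⟩
    have c4' : ∀ k < n, W μ s η (((k + 1 : ℕ) : ℤ), lp ((k + 1 : ℕ) : ℤ)) (n - (k + 1)) (y - lp ((k + 1 : ℕ) : ℤ)) ≤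
        Real.exp G := by
      intro k hk
      by_contra h
      exact c4 ⟨k, hk, (not_le.1 h).le⟩
    have c5' : X μ s η 0 n y ≤ B := by
      by_contra h
      exact c5 h
    have hW : Real.exp (-B) ≤ W μ s η 0 n y := by
      have hpos := W_pos (μ := μ) (s := s) η 0 hy0 hy1
      rw [← Real.exp_log hpos]
      apply Real.exp_le_exp.2
      unfold X at c5'
      linarith
    have hsplit := tube_split (μ := μ) (s := s) hm hp hm0 hp0 η n y
    have s1 : ∑ k ∈ Finset.range n, W μ s η 0 (k + 1) (lp ((k + 1 : ℕ) : ℤ)) *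
        W μ s η (((k + 1 : ℕ) : ℤ), lp ((k + 1 : ℕ) : ℤ)) (n - (k + 1)) (y - lp ((k + 1 : ℕ) : ℤ)) ≤
        n * Real.exp (G - Y) := by
      have h : ∀ k ∈ Finset.range n, W μ s η 0 (k + 1) (lp ((k + 1 : ℕ) : ℤ)) *
          W μ s η (((k + 1 : ℕ) : ℤ), lp ((k + 1 : ℕ) : ℤ)) (n - (k + 1)) (y - lp ((k + 1 : ℕ) : ℤ)) ≤
          Real.exp (G - Y) := by
        intro k hk
        have hk' := Finset.mem_range.1 hk
        have e : Real.exp (G - Y) = Real.exp (-Y) * Real.exp G := by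
          rw [← Real.exp_add]
          congr 1
          ring
        rw [e]
        exact mul_le_mul (c1' k hk') (c4' k hk') (W_nonneg _ _ _ _) (Real.exp_pos _).le
      have h2 := Finset.sum_le_card_nsmul _ _ _ h
      rw [Finset.card_range, nsmul_eq_mul] at h2
      exact h2
    have s2 : ∑ k ∈ Finset.range n, W μ s η 0 (k + 1) (lm ((k + 1 : ℕ) : ℤ)) *
        W μ s η (((k + 1 : ℕ) : ℤ), lm ((k + 1 : ℕ) : ℤ)) (n - (k + 1)) (y - lm ((k + 1 : ℕ) : ℤ)) ≤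
        n * Real.exp (G - Y) := by
      have h : ∀ k ∈ Finset.range n, W μ s η 0 (k + 1) (lm ((k + 1 : ℕ) : ℤ)) *
          W μ s η (((k + 1 : ℕ) : ℤ), lm ((k + 1 : ℕ) : ℤ)) (n - (k + 1)) (y - lm ((k + 1 : ℕ) : ℤ)) ≤
          Real.exp (G - Y) := by
        intro k hk
        have hk' := Finset.mem_range.1 hk
        have e : Real.exp (G - Y) = Real.exp G * Real.exp (-Y) := by
          rw [← Real.exp_add]
          congr 1
        rw [e]
        exact mul_le_mul (c3' k hk') (c2' k hk') (W_nonneg _ _ _ _) (Real.exp_pos _).le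
      have h2 := Finset.sum_le_card_nsmul _ _ _ h
      rw [Finset.card_range, nsmul_eq_mul] at h2
      exact h2
    have s3 : 4 * (n * Real.exp (G - Y)) ≤ Real.exp (-B) := by
      rcases Nat.eq_zero_or_pos n with h0 | h0
      · subst h0
        simp only [Nat.cast_zero, zero_mul, mul_zero]
        exact (Real.exp_pos _).le
      · have hn : (0 : ℝ) < 4 * n := by positivity
        have e : 4 * ((n : ℝ) * Real.exp (G - Y)) = Real.exp (Real.log (4 * n) + (G - Y)) := by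
          rw [Real.exp_add, Real.exp_log hn]
          ring
        rw [e]
        exact Real.exp_le_exp.2 (by linarith)
    show W μ s η 0 n y ≤ 2 * WR μ s (Tb lm lp) η 0 n y
    linarith
  · exact measurableSet_le (measurable_W _ _ _) ((measurable_WR _ _ _ _).const_mul 2)

end Pool.Agent.W_7d29a1_h95g
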