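import Pool.Agent.W_7d29a1_F.CoreA

/-!
First passage decompositions of the restricted partition functions `Zr` (exits from a set `L` of sites
with at most one exit point at every time: the sites to the left or to the right of a line).
-/

namespace Pool.Agent.W_7d29a1_h95g

open MeasureTheory Pool.Agent.W_7d29a1_F

lemma Zr_zero (R : Set Pt) (η : Env) (a : Pt) (y : ℤ) : Zr R η a 0 y = if y = 0 then 1 else 0 := rfl

lemma Zr_succ (R : Set Pt) (η : Env) (a : Pt) (n : ℕ) (y : ℤ) :
    Zr R η a (n + 1) y = R.indicator (fun p => Real.exp (η p)) (a.1 + (n + 1), a.2 + y) *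
      (Zr R η a n y + Zr R η a n (y - 1)) := rfl

/-- Only the sites of the times `a.1 + 1, …, a.1 + n` of the region matter. -/
theorem Zr_congr_region {R R' : Set Pt} (η : Env) (a : Pt) (n : ℕ) (y : ℤ)
    (h : ∀ p : Pt, a.1 < p.1 → p.1 ≤ a.1 + n → (p ∈ R ↔ p ∈ R')) :
    Zr R η a n y = Zr R' η a n y := by
  induction n generalizing y with
  | zero => rfl
  | succ n ih =>
    have h1 : ∀ p : Pt, a.1 < p.1 → p.1 ≤ a.1 + n → (p ∈ R ↔ p ∈ R') := fun p hp hp' =>
      h p hp (by push_cast; omega)
    rw [Zr_succ, Zr_succ, ih y h1, ih (y - 1) h1]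
    congr 1
    have h2 := h (a.1 + ((n : ℤ) + 1), a.2 + y) (by simp only; omega) (by push_cast; simp)
    by_cases hp : ((a.1 + ((n : ℤ) + 1), a.2 + y) : Pt) ∈ R
    · rw [Set.indicator_of_mem hp, Set.indicator_of_mem (h2.1 hp)]
    · rw [Set.indicator_of_notMem hp, Set.indicator_of_notMem fun hq => hp (h2.2 hq)]

/-- The last site of a path with nonzero weight is in the region. -/
theorem mem_of_Zr_ne_zero {R : Set Pt} {η : Env} {a : Pt} {n : ℕ} {y : ℤ} (h : Zr R η a n y ≠ 0) :
    (n = 0 ∧ y = 0) ∨ ((a.1 + n, a.2 + y) : Pt) ∈ R := by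
  cases n with
  | zero =>
    left
    refine ⟨rfl, ?_⟩
    by_contra hy
    apply h
    rw [Zr_zero, if_neg hy]
  | succ n =>
    right
    by_contra hp
    apply h
    rw [Zr_succ, Set.indicator_of_notMem, zero_mul]
    intro hq
    apply hp
    push_cast
    exact hq

/-- The exit points of `L`: a step from a site of `L` to a site at the time `t` outside of `L` goes to
`(t, c t)`. -/
structure ExitAt (L : Set Pt) (c : ℤ → ℤ) : Prop where
  out : ∀ t, ((t, c t) : Pt) ∉ L
  step : ∀ t x x' : ℤ, ((t, x) : Pt) ∈ L → (x' = x ∨ x' = x + 1) → ((t + 1, x') : Pt) ∉ L →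
    x' = c (t + 1)

/-- The sites to the left of a line. -/
theorem exitAt_left {l : ℤ → ℤ} (h0 : ∀ t, l t ≤ l (t + 1)) :
    ExitAt {p : Pt | p.2 < l p.1} l := by
  refine ⟨fun t ht => lt_irrefl (l t) ht, fun t x x' hx hs hx' => ?_⟩
  simp only [Set.mem_setOf_eq, not_lt] at hx hx'
  have := h0 t
  rcases hs with hs | hs <;> omega

/-- The sites to the right of a line. -/
theorem exitAt_right {l : ℤ → ℤ} (h1 : ∀ t, l (t + 1) ≤ l t + 1) :
    ExitAt {p : Pt | l p.1 < p.2} l := by
  refine ⟨fun t ht => lt_irrefl (l t) ht, fun t x x' hx hs hx' => ?_⟩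
  simp only [Set.mem_setOf_eq, not_lt] at hx hx'
  have := h1 t
  rcases hs with hs | hs <;> omega

/-- The exit point at the time `a.1 + (k + 1)`. -/
def bk (c : ℤ → ℤ) (a : Pt) (k : ℕ) : Pt := (a.1 + (k + 1), c (a.1 + (k + 1)))

/-- The displacement in space from `a` to the exit point. -/
def dk (c : ℤ → ℤ) (a : Pt) (k : ℕ) : ℤ := c (a.1 + (k + 1)) - a.2

/-- The weight of the paths from `a` whose first exit from `L` is at the time `a.1 + (k + 1)`. -/
noncomputable def Fk (R L : Set Pt) (c : ℤ → ℤ) (η : Env) (a : Pt) (k : ℕ) : ℝ :=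
  Zr (R ∩ (L ∪ {bk c a k})) η a (k + 1) (dk c a k)

/-- First exit decomposition. -/
theorem exit_decomp {L : Set Pt} {c : ℤ → ℤ} (hL : ExitAt L c) (R : Set Pt) (η : Env) {a : Pt}
    (ha : a ∈ L) (n : ℕ) (y : ℤ) :
    Zr R η a n y = Zr (R ∩ L) η a n y +
      ∑ k ∈ Finset.range n, Fk R L c η a k * Zr R η (bk c a k) (n - (k + 1)) (y - dk c a k) := by
  induction n generalizing y with
  | zero => simp [Zr_zero]
  | succ n ih =>
    have hp : ∀ k ∈ Finset.range n,
        Zr R η (bk c a k) (n + 1 - (k + 1)) (y - dk c a k) =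
          R.indicator (fun p => Real.exp (η p)) (a.1 + (n + 1), a.2 + y) *
            (Zr R η (bk c a k) (n - (k + 1)) (y - dk c a k) +
              Zr R η (bk c a k) (n - (k + 1)) (y - 1 - dk c a k)) := by
      intro k hk
      rw [Finset.mem_range] at hk
      have e1 : n + 1 - (k + 1) = (n - (k + 1)) + 1 := by omega
      rw [e1, Zr_succ]
      have e2 : (((bk c a k).1 + (((n - (k + 1) : ℕ) : ℤ) + 1), (bk c a k).2 + (y - dk c a k)) : Pt) =
          (a.1 + (n + 1), a.2 + y) := by
        have e3 : ((n - (k + 1) : ℕ) : ℤ) = (n : ℤ) - (k + 1) := by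
          push_cast [Nat.cast_sub (show k + 1 ≤ n by omega)]
          ring
        ext
        · simp only [bk]
          rw [e3]
          ring
        · simp only [bk, dk]
          ring
      rw [e2]
      congr 3
      ring
    have hlast : R.indicator (fun p => Real.exp (η p)) (a.1 + ((n : ℤ) + 1), a.2 + y) *
        (Zr (R ∩ L) η a n y + Zr (R ∩ L) η a n (y - 1)) =
        Zr (R ∩ L) η a (n + 1) y +
          Fk R L c η a n * Zr R η (bk c a n) (n + 1 - (n + 1)) (y - dk c a n) := by
      rw [Nat.sub_self, Zr_zero]
      by_cases hpL : ((a.1 + ((n : ℤ) + 1), a.2 + y) : Pt) ∈ L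
      · have hy : ¬ (y - dk c a n = 0) := by
          intro hy
          have e1 : a.2 + y = c (a.1 + ((n : ℤ) + 1)) := by
            have : y = dk c a n := by omega
            rw [this]
            simp only [dk]
            ring
          rw [e1] at hpL
          exact hL.out _ hpL
        rw [if_neg hy, mul_zero, add_zero, Zr_succ]
        congr 1
        by_cases hpR : ((a.1 + ((n : ℤ) + 1), a.2 + y) : Pt) ∈ R
        · rw [Set.indicator_of_mem hpR, Set.indicator_of_mem (Set.mem_inter hpR hpL)]
        · rw [Set.indicator_of_notMem hpR, Set.indicator_of_notMem fun hq => hpR hq.1]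
      · have h0 : Zr (R ∩ L) η a (n + 1) y = 0 := by
          rw [Zr_succ, Set.indicator_of_notMem (fun hq => hpL hq.2), zero_mul]
        rw [h0, zero_add]
        by_cases hy : y - dk c a n = 0
        · rw [if_pos hy, mul_one]
          have hy' : dk c a n = y := by omega
          have hb : bk c a n = (a.1 + ((n : ℤ) + 1), a.2 + y) := by
            rw [← hy']
            ext
            · rfl
            · simp only [bk, dk]
              ring
          unfold Fk
          rw [hy', hb, Zr_succ]
          have h1 : ∀ z, Zr (R ∩ (L ∪ {((a.1 + ((n : ℤ) + 1), a.2 + y) : Pt)})) η a n z =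
              Zr (R ∩ L) η a n z := fun z => by
            refine Zr_congr_region η a n z fun p hp1 hp2 => ?_
            constructor
            · rintro ⟨hR, h2 | h2⟩
              · exact ⟨hR, h2⟩
              · exfalso
                rw [Set.mem_singleton_iff] at h2
                rw [h2] at hp2
                simp only at hp2
                omega
            · rintro ⟨hR, h2⟩
              exact ⟨hR, Or.inl h2⟩
          rw [h1, h1]
          congr 1
          by_cases hpR : ((a.1 + ((n : ℤ) + 1), a.2 + y) : Pt) ∈ R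
          · rw [Set.indicator_of_mem hpR, Set.indicator_of_mem]
            exact ⟨hpR, Or.inr rfl⟩
          · rw [Set.indicator_of_notMem hpR, Set.indicator_of_notMem fun hq => hpR hq.1]
        · rw [if_neg hy, mul_zero]
          have hc : a.2 + y ≠ c (a.1 + n + 1) := by
            intro h1
            apply hy
            simp only [dk]
            rw [← add_assoc, ← h1]
            ring
          have hpL' : ((a.1 + (n : ℤ) + 1, a.2 + y) : Pt) ∉ L := by
            rw [add_assoc]
            exact hpL
          have key : ∀ z, (y = z ∨ y = z + 1) → Zr (R ∩ L) η a n z = 0 := by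
            intro z hz
            by_contra hne
            have hm : ((a.1 + (n : ℤ), a.2 + z) : Pt) ∈ L := by
              rcases mem_of_Zr_ne_zero hne with ⟨h1, h2⟩ | h1
              · subst h1
                rw [h2]
                simpa using ha
              · exact h1.2
            refine hc (hL.step _ _ _ hm ?_ hpL')
            rcases hz with hz | hz
            · left
              rw [hz]
            · right
              rw [hz]
              ring
          rw [key y (Or.inl rfl), key (y - 1) (Or.inr (by ring)), add_zero, mul_zero]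
    rw [Finset.sum_range_succ, Finset.sum_congr rfl fun k hk => by rw [hp k hk], ← add_assoc,
      add_right_comm, ← hlast, Zr_succ, ih y, ih (y - 1)]
    rw [Finset.sum_congr rfl fun k _ => show
      Fk R L c η a k * (R.indicator (fun p => Real.exp (η p)) (a.1 + ((n : ℤ) + 1), a.2 + y) *
            (Zr R η (bk c a k) (n - (k + 1)) (y - dk c a k) +
              Zr R η (bk c a k) (n - (k + 1)) (y - 1 - dk c a k))) =
      R.indicator (fun p => Real.exp (η p)) (a.1 + ((n : ℤ) + 1), a.2 + y) *
        (Fk R L c η a k * Zr R η (bk c a k) (n - (k + 1)) (y - dk c a k)) +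
      R.indicator (fun p => Real.exp (η p)) (a.1 + ((n : ℤ) + 1), a.2 + y) *
        (Fk R L c η a k * Zr R η (bk c a k) (n - (k + 1)) (y - 1 - dk c a k)) by ring]
    rw [Finset.sum_add_distrib, ← Finset.mul_sum, ← Finset.mul_sum]
    ring

end Pool.Agent.W_7d29a1_h95g
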