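import Pool.Agent.W_7d29a1_F.CoreD
import Pool.Agent.W_7d29a1_h95g.Exit

/-!
The deterministic tube inequality: the paths from `0` which leave the strip between two lines pass through a
point of one of the lines.
-/

namespace Pool.Agent.W_7d29a1_h95g

open MeasureTheory Pool.Agent.W_7d29a1_F

variable {μ : Measure ℝ} [IsProbabilityMeasure μ] {s : ℝ}

/-- A line: it can be followed by a path. -/
structure IsLine (l : ℤ → ℤ) : Prop where
  lo : ∀ t, l t ≤ l (t + 1)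
  hi : ∀ t, l (t + 1) ≤ l t + 1

theorem IsLine.le {l : ℤ → ℤ} (h : IsLine l) (t : ℤ) (n : ℕ) : l t ≤ l (t + n) := by
  induction n with
  | zero => simp
  | succ n ih =>
    have := h.lo (t + n)
    push_cast
    rw [← add_assoc]
    exact ih.trans this

theorem IsLine.le' {l : ℤ → ℤ} (h : IsLine l) (t : ℤ) (n : ℕ) : l (t + n) ≤ l t + n := by
  induction n with
  | zero => simp
  | succ n ih =>
    have := h.hi (t + n)
    push_cast
    rw [← add_assoc]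
    omega

/-- The displacement between two times of a line can be made. -/
theorem IsLine.reach {l : ℤ → ℤ} (h : IsLine l) {t t' : ℤ} (ht : t ≤ t') : 0 ≤ l t' - l t ∧ l t' - l t ≤ t' - t := by
  obtain ⟨n, hn⟩ : ∃ n : ℕ, t' = t + n := ⟨(t' - t).toNat, by omega⟩
  subst hn
  have h1 := h.le t n
  have h2 := h.le' t n
  omega

/-- The strip between two lines. -/
def Tb (lm lp : ℤ → ℤ) : Set Pt := {p | lm p.1 < p.2 ∧ p.2 < lp p.1}

theorem WR_def' (R : Set Pt) (η : Env) (a : Pt) (n : ℕ) (y : ℤ) :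
    WR μ s R η a n y = Real.exp (s * y - n * lam μ s) * Zr R η a n y := rfl

/-- First exits, normalised, from `0`. -/
theorem W_exit_le {L : Set Pt} {c : ℤ → ℤ} (hL : ExitAt L c) (R : Set Pt) (η : Env) (ha : (0 : Pt) ∈ L) (n : ℕ) (y : ℤ) :
    WR μ s R η 0 n y ≤ WR μ s (R ∩ L) η 0 n y + ∑ k ∈ Finset.range n,
      W μ s η 0 (k + 1) (c ((k + 1 : ℕ) : ℤ)) *
        W μ s η (((k + 1 : ℕ) : ℤ), c ((k + 1 : ℕ) : ℤ)) (n - (k + 1)) (y - c ((k + 1 : ℕ) : ℤ)) := by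
  rw [WR_def', WR_def', exit_decomp hL R η ha n y, mul_add, Finset.mul_sum]
  refine add_le_add le_rfl (Finset.sum_le_sum fun k hk => ?_)
  rw [Finset.mem_range] at hk
  have hb : bk c 0 k = ((((k + 1 : ℕ) : ℤ), c ((k + 1 : ℕ) : ℤ)) : Pt) := by
    unfold bk
    push_cast
    simp
  have hd : dk c 0 k = c ((k + 1 : ℕ) : ℤ) := by
    unfold dk
    push_cast
    simp
  have h1 : Fk R L c η 0 k ≤ Zr Set.univ η 0 (k + 1) (c ((k + 1 : ℕ) : ℤ)) := by
    unfold Fk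
    rw [hd]
    exact Zr_mono (Set.subset_univ _) η 0 (k + 1) _
  have h2 : Zr R η (bk c 0 k) (n - (k + 1)) (y - dk c 0 k) ≤
      Zr Set.univ η (((k + 1 : ℕ) : ℤ), c ((k + 1 : ℕ) : ℤ)) (n - (k + 1)) (y - c ((k + 1 : ℕ) : ℤ)) := by
    rw [hb, hd]
    exact Zr_mono (Set.subset_univ _) η _ _ _
  have h3 := mul_le_mul h1 h2 (Zr_nonneg _ _ _ _ _) (Zr_nonneg _ _ _ _ _)
  have h4 := mul_le_mul_of_nonneg_left h3 (Real.exp_pos (s * y - n * lam μ s)).le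
  refine h4.trans (le_of_eq ?_)
  unfold W
  rw [WR_def', WR_def']
  have e1 : Real.exp (s * (y : ℝ) - n * lam μ s) =
      Real.exp (s * ((c ((k + 1 : ℕ) : ℤ) : ℤ) : ℝ) - ((k + 1 : ℕ) : ℝ) * lam μ s) *
        Real.exp (s * ((y - c ((k + 1 : ℕ) : ℤ) : ℤ) : ℝ) - ((n - (k + 1) : ℕ) : ℝ) * lam μ s) := by
    rw [← Real.exp_add]
    congr 1
    rw [Nat.cast_sub (by omega)]
    push_cast
    ring
  rw [e1]
  ring

/-- THE TUBE INEQUALITY. -/
theorem tube_split {lm lp : ℤ → ℤ} (hm : IsLine lm) (hp : IsLine lp) (hm0 : lm 0 < 0) (hp0 : 0 < lp 0) (η : Env)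
    (n : ℕ) (y : ℤ) :
    W μ s η 0 n y ≤ WR μ s (Tb lm lp) η 0 n y +
      (∑ k ∈ Finset.range n, W μ s η 0 (k + 1) (lp ((k + 1 : ℕ) : ℤ)) *
        W μ s η (((k + 1 : ℕ) : ℤ), lp ((k + 1 : ℕ) : ℤ)) (n - (k + 1)) (y - lp ((k + 1 : ℕ) : ℤ))) +
      ∑ k ∈ Finset.range n, W μ s η 0 (k + 1) (lm ((k + 1 : ℕ) : ℤ)) *
        W μ s η (((k + 1 : ℕ) : ℤ), lm ((k + 1 : ℕ) : ℤ)) (n - (k + 1)) (y - lm ((k + 1 : ℕ) : ℤ)) := by
  have h1 := W_exit_le (μ := μ) (s := s) (exitAt_left hp.lo) Set.univ η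
    (show (0 : Pt) ∈ {p : Pt | p.2 < lp p.1} from hp0) n y
  have h2 := W_exit_le (μ := μ) (s := s) (exitAt_right hm.hi) (Set.univ ∩ {p : Pt | p.2 < lp p.1}) η
    (show (0 : Pt) ∈ {p : Pt | lm p.1 < p.2} from hm0) n y
  have e : (Set.univ ∩ {p : Pt | p.2 < lp p.1}) ∩ {p : Pt | lm p.1 < p.2} = Tb lm lp := by
    ext p
    simp only [Tb, Set.mem_inter_iff, Set.mem_univ, true_and, Set.mem_setOf_eq]
    exact and_comm
  rw [e] at h2
  have h3 : W μ s η 0 n y = WR μ s Set.univ η 0 n y := rfl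
  rw [h3]
  linarith

end Pool.Agent.W_7d29a1_h95g
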