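import Pool.Agent.W_7d29a1_F.CoreD
import Pool.Agent.W_7d29a1_F.LuckA

/-!
First hit lemmas: a family of events `A k` which depend on increasing sets `S k` of sites, continued by fresh
events (or fresh costs) which depend on sets `S' k` disjoint from `S k`.
-/

namespace Pool.Agent.W_7d29a1_h95g

open MeasureTheory ProbabilityTheory Filter Topology Pool.Agent.W_7d29a1_F

variable {μ : Measure ℝ} [IsProbabilityMeasure μ]

/-- The event `A` depends on the sites of `S` only. -/
def Dep (A : Set Env) (S : Set Pt) : Prop := ∀ η η' : Env, (∀ p ∈ S, η p = η' p) → (η ∈ A ↔ η' ∈ A)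

theorem Dep.mono {A : Set Env} {S S' : Set Pt} (h : Dep A S) (hS : S ⊆ S') : Dep A S' :=
  fun η η' hh => h η η' fun p hp => hh p (hS hp)

theorem Dep.of_fun {f : Env → ℝ} {S : Set Pt} (h : DependsOn f S) (p : ℝ → Prop) :
    Dep {η | p (f η)} S := by
  intro η η' hh
  show p (f η) ↔ p (f η')
  rw [h hh]

theorem Dep.indicator {A : Set Env} {S : Set Pt} (h : Dep A S) : DependsOn (A.indicator fun _ => (1 : ℝ)) S := by
  intro η η' hh
  classical
  rw [Set.indicator_apply, Set.indicator_apply]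
  have := h η η' hh
  by_cases h1 : η ∈ A
  · rw [if_pos h1, if_pos (this.1 h1)]
  · rw [if_neg h1, if_neg fun h2 => h1 (this.2 h2)]

/-- `k` is the first index such that `A k`. -/
def D (A : ℕ → Set Env) (k : ℕ) : Set Env := {η | η ∈ A k ∧ ∀ j < k, η ∉ A j}

theorem D_sub (A : ℕ → Set Env) (k : ℕ) : D A k ⊆ A k := fun _ h => h.1

theorem D_disj (A : ℕ → Set Env) {j k : ℕ} (h : j ≠ k) : Disjoint (D A j) (D A k) := by
  rw [Set.disjoint_left]
  intro η hj hk
  rcases lt_or_gt_of_ne h with h1 | h1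
  · exact hk.2 j h1 hj.1
  · exact hj.2 k h1 hk.1

theorem D_meas {A : ℕ → Set Env} (hA : ∀ k, MeasurableSet (A k)) (k : ℕ) : MeasurableSet (D A k) := by
  have e : D A k = A k ∩ ⋂ j ∈ Finset.range k, (A j)ᶜ := by
    ext η
    simp only [D, Set.mem_setOf_eq, Set.mem_inter_iff, Set.mem_iInter, Finset.mem_range, Set.mem_compl_iff]
  rw [e]
  exact (hA k).inter (Finset.measurableSet_biInter _ fun j _ => (hA j).compl)

theorem D_union (A : ℕ → Set Env) (n : ℕ) : {η | ∃ k < n, η ∈ A k} = ⋃ k ∈ Finset.range n, D A k := by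
  classical
  ext η
  simp only [Set.mem_setOf_eq, Set.mem_iUnion, Finset.mem_range]
  constructor
  · rintro ⟨k, hk, h⟩
    have hex : ∃ j, η ∈ A j := ⟨k, h⟩
    refine ⟨Nat.find hex, lt_of_le_of_lt (Nat.find_min' hex h) hk, Nat.find_spec hex, fun j hj => Nat.find_min hex hj⟩
  · rintro ⟨k, hk, h⟩
    exact ⟨k, hk, h.1⟩

theorem D_dep {A : ℕ → Set Env} {S : ℕ → Set Pt} {n : ℕ} (hA : ∀ k < n, Dep (A k) (S k))
    (hS : ∀ j k, j ≤ k → k < n → S j ⊆ S k) {k : ℕ} (hk : k < n) : Dep (D A k) (S k) := by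
  intro η η' hh
  have h1 : ∀ j ≤ k, (η ∈ A j ↔ η' ∈ A j) := fun j hj =>
    (hA j (lt_of_le_of_lt hj hk)).mono (hS j k hj hk) η η' hh
  constructor
  · rintro ⟨h2, h3⟩
    exact ⟨(h1 k le_rfl).1 h2, fun j hj h4 => h3 j hj ((h1 j hj.le).2 h4)⟩
  · rintro ⟨h2, h3⟩
    exact ⟨(h1 k le_rfl).2 h2, fun j hj h4 => h3 j hj ((h1 j hj.le).1 h4)⟩

theorem real_union {A : ℕ → Set Env} (hA : ∀ k, MeasurableSet (A k)) (n : ℕ) :
    (law μ).real {η | ∃ k < n, η ∈ A k} = ∑ k ∈ Finset.range n, (law μ).real (D A k) := by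
  rw [D_union, measureReal_biUnion_finset]
  · intro j _ k _ hjk
    exact D_disj A hjk
  · intro k _
    exact D_meas hA k

/-- FIRST HIT LEMMA for events. -/
theorem hit_events {n : ℕ} {A B : ℕ → Set Env} {S S' : ℕ → Set Pt} {C : Set Env} {q : ℝ}
    (hA : ∀ k, MeasurableSet (A k)) (hB : ∀ k < n, MeasurableSet (B k)) (hC : MeasurableSet C)
    (hAd : ∀ k < n, Dep (A k) (S k)) (hBd : ∀ k < n, Dep (B k) (S' k))
    (hS : ∀ j k, j ≤ k → k < n → S j ⊆ S k) (hSS : ∀ k < n, Disjoint (S k) (S' k))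
    (hq : ∀ k < n, q ≤ (law μ).real (B k)) (hABC : ∀ k < n, A k ∩ B k ⊆ C) :
    q * (law μ).real {η | ∃ k < n, η ∈ A k} ≤ (law μ).real C := by
  classical
  rw [real_union hA, Finset.mul_sum]
  have h1 : ∀ k ∈ Finset.range n, q * (law μ).real (D A k) ≤ (law μ).real (D A k ∩ B k) := by
    intro k hk
    rw [Finset.mem_range] at hk
    have h2 := integral_indep (μ := μ) (f := (D A k).indicator fun _ => (1 : ℝ)) (g := (B k).indicator fun _ => (1 : ℝ))
      (measurable_const.indicator (D_meas hA k)) (measurable_const.indicator (hB k hk))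
      (D_dep hAd hS hk).indicator (hBd k hk).indicator (hSS k hk)
    have e1 : ∀ η, (D A k).indicator (fun _ => (1 : ℝ)) η * (B k).indicator (fun _ => (1 : ℝ)) η =
        (D A k ∩ B k).indicator (fun _ => (1 : ℝ)) η := by
      intro η
      simp only [Set.indicator_apply, Set.mem_inter_iff]
      by_cases h3 : η ∈ D A k <;> by_cases h4 : η ∈ B k <;> simp [h3, h4]
    simp only [e1] at h2
    rw [integral_indicator_const _ (D_meas hA k), integral_indicator_const _ (hB k hk),
      integral_indicator_const _ ((D_meas hA k).inter (hB k hk))] at h2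
    simp only [smul_eq_mul, mul_one] at h2
    rw [h2, mul_comm]
    exact mul_le_mul_of_nonneg_left (hq k hk) measureReal_nonneg
  refine (Finset.sum_le_sum h1).trans ?_
  rw [← measureReal_biUnion_finset]
  · refine measureReal_mono ?_
    intro η hη
    simp only [Set.mem_iUnion, Finset.mem_range] at hη
    obtain ⟨k, hk, h2⟩ := hη
    exact hABC k hk ⟨h2.1.1, h2.2⟩
  · intro j _ k _ hjk
    exact (D_disj A hjk).mono Set.inter_subset_left Set.inter_subset_left
  · intro k hk
    exact (D_meas hA k).inter (hB k (Finset.mem_range.1 hk))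

/-- FIRST HIT LEMMA for costs: `f` has a nonnegative mean, `f ≤ fp`, and `f ≤ g k - G` on `A k` with a fresh `g k`. -/
theorem hit_costs {n : ℕ} {A : ℕ → Set Env} {S S' : ℕ → Set Pt} {f fp : Env → ℝ} {g : ℕ → Env → ℝ} {G a a' : ℝ}
    (hA : ∀ k, MeasurableSet (A k)) (hAd : ∀ k < n, Dep (A k) (S k)) (hgd : ∀ k < n, DependsOn (g k) (S' k))
    (hS : ∀ j k, j ≤ k → k < n → S j ⊆ S k) (hSS : ∀ k < n, Disjoint (S k) (S' k))
    (hgm : ∀ k < n, Measurable (g k)) (hgi : ∀ k < n, Integrable (g k) (law μ)) (hg : ∀ k < n, ∫ η, g k η ∂(law μ) ≤ a)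
    (hf : Integrable f (law μ)) (hf0 : 0 ≤ ∫ η, f η ∂(law μ)) (hfp : Integrable fp (law μ)) (hfp0 : ∀ η, 0 ≤ fp η)
    (hff : ∀ η, f η ≤ fp η) (hfa : ∫ η, fp η ∂(law μ) ≤ a') (hAf : ∀ k < n, ∀ η ∈ A k, f η ≤ g k η - G) :
    (G - a) * (law μ).real {η | ∃ k < n, η ∈ A k} ≤ a' := by
  classical
  have hdi : ∀ k < n, Integrable (fun η => (D A k).indicator (fun _ => (1 : ℝ)) η * g k η) (law μ) := by
    intro k hk
    have e1 : (fun η => (D A k).indicator (fun _ => (1 : ℝ)) η * g k η) = (D A k).indicator (g k) := by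
      funext η
      by_cases h : η ∈ D A k
      · rw [Set.indicator_of_mem h, Set.indicator_of_mem h, one_mul]
      · rw [Set.indicator_of_notMem h, Set.indicator_of_notMem h, zero_mul]
    rw [e1]
    exact (hgi k hk).indicator (D_meas hA k)
  have h1 : ∀ η, f η ≤ fp η + ∑ k ∈ Finset.range n,
      ((D A k).indicator (fun _ => (1 : ℝ)) η * g k η - G * (D A k).indicator (fun _ => (1 : ℝ)) η) := by
    intro η
    by_cases h : ∃ k < n, η ∈ D A k
    · obtain ⟨k, hk, h2⟩ := h
      rw [Finset.sum_eq_single_of_mem k (Finset.mem_range.2 hk)]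
      · rw [Set.indicator_of_mem h2]
        have := hAf k hk η h2.1
        have := hfp0 η
        linarith
      · intro j _ hjk
        rw [Set.indicator_of_notMem (fun h3 => (Set.disjoint_left.1 (D_disj A hjk)) h3 h2)]
        ring
    · rw [Finset.sum_eq_zero]
      · have := hff η
        linarith
      · intro k hk
        rw [Set.indicator_of_notMem (fun h3 => h ⟨k, Finset.mem_range.1 hk, h3⟩)]
        ring
  have hDi : ∀ k, Integrable (fun η => G * (D A k).indicator (fun _ => (1 : ℝ)) η) (law μ) := fun k =>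
    ((integrable_const (1 : ℝ)).indicator (D_meas hA k)).const_mul G
  have h2 : ∫ η, f η ∂(law μ) ≤ ∫ η, fp η ∂(law μ) + ∑ k ∈ Finset.range n,
      (∫ η, (D A k).indicator (fun _ => (1 : ℝ)) η * g k η ∂(law μ) - G * (law μ).real (D A k)) := by
    have hsum : Integrable (fun η => ∑ k ∈ Finset.range n,
        ((D A k).indicator (fun _ => (1 : ℝ)) η * g k η - G * (D A k).indicator (fun _ => (1 : ℝ)) η)) (law μ) :=
      integrable_finsetSum (Finset.range n) fun k hk => ((hdi k (Finset.mem_range.1 hk)).sub (hDi k))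
    have hadd : Integrable (fun η => fp η + ∑ k ∈ Finset.range n,
        ((D A k).indicator (fun _ => (1 : ℝ)) η * g k η - G * (D A k).indicator (fun _ => (1 : ℝ)) η)) (law μ) :=
      hfp.add hsum
    have h3 := integral_mono hf hadd h1
    refine h3.trans (le_of_eq ?_)
    rw [integral_add hfp hsum, integral_finsetSum]
    · congr 1
      refine Finset.sum_congr rfl fun k hk => ?_
      rw [integral_sub (hdi k (Finset.mem_range.1 hk)) (hDi k), integral_const_mul,
        integral_indicator_const _ (D_meas hA k)]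
      simp
    · intro k hk
      exact (hdi k (Finset.mem_range.1 hk)).sub (hDi k)
  have h4 : ∀ k ∈ Finset.range n, ∫ η, (D A k).indicator (fun _ => (1 : ℝ)) η * g k η ∂(law μ) - G * (law μ).real (D A k) ≤
      (a - G) * (law μ).real (D A k) := by
    intro k hk
    rw [Finset.mem_range] at hk
    rw [integral_indep (μ := μ) (measurable_const.indicator (D_meas hA k)) (hgm k hk)
      (D_dep hAd hS hk).indicator (hgd k hk) (hSS k hk), integral_indicator_const _ (D_meas hA k)]
    simp only [smul_eq_mul, mul_one]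
    have h5 := mul_le_mul_of_nonneg_left (hg k hk) (measureReal_nonneg (μ := law μ) (s := D A k))
    linarith
  have h5 := Finset.sum_le_sum h4
  rw [← Finset.mul_sum, ← real_union hA] at h5
  linarith

theorem rev_union (F : ℕ → Set Env) (n : ℕ) : {η | ∃ k < n, η ∈ F (n - 1 - k)} = {η | ∃ k < n, η ∈ F k} := by
  ext η
  constructor
  · rintro ⟨k, hk, h⟩
    exact ⟨n - 1 - k, by omega, h⟩
  · rintro ⟨k, hk, h⟩
    refine ⟨n - 1 - k, by omega, ?_⟩
    have e : n - 1 - (n - 1 - k) = k := by omega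
    show η ∈ F (n - 1 - (n - 1 - k))
    rw [e]
    exact h

/-- LAST HIT LEMMA for events: the sets of sites decrease. -/
theorem hit_events' {n : ℕ} {A B : ℕ → Set Env} {S S' : ℕ → Set Pt} {C : Set Env} {q : ℝ}
    (hA : ∀ k, MeasurableSet (A k)) (hB : ∀ k < n, MeasurableSet (B k)) (hC : MeasurableSet C)
    (hAd : ∀ k < n, Dep (A k) (S k)) (hBd : ∀ k < n, Dep (B k) (S' k))
    (hS : ∀ j k, j ≤ k → k < n → S k ⊆ S j) (hSS : ∀ k < n, Disjoint (S k) (S' k))
    (hq : ∀ k < n, q ≤ (law μ).real (B k)) (hABC : ∀ k < n, A k ∩ B k ⊆ C) :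
    q * (law μ).real {η | ∃ k < n, η ∈ A k} ≤ (law μ).real C := by
  rw [← rev_union A n]
  exact hit_events (μ := μ) (A := fun k => A (n - 1 - k)) (B := fun k => B (n - 1 - k))
    (S := fun k => S (n - 1 - k)) (S' := fun k => S' (n - 1 - k)) (fun k => hA _) (fun k hk => hB _ (by omega)) hC
    (fun k hk => hAd _ (by omega)) (fun k hk => hBd _ (by omega)) (fun j k hjk hk => hS _ _ (by omega) (by omega))
    (fun k hk => hSS _ (by omega)) (fun k hk => hq _ (by omega)) (fun k hk => hABC _ (by omega))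

/-- LAST HIT LEMMA for costs: the sets of sites decrease. -/
theorem hit_costs' {n : ℕ} {A : ℕ → Set Env} {S S' : ℕ → Set Pt} {f fp : Env → ℝ} {g : ℕ → Env → ℝ} {G a a' : ℝ}
    (hA : ∀ k, MeasurableSet (A k)) (hAd : ∀ k < n, Dep (A k) (S k)) (hgd : ∀ k < n, DependsOn (g k) (S' k))
    (hS : ∀ j k, j ≤ k → k < n → S k ⊆ S j) (hSS : ∀ k < n, Disjoint (S k) (S' k))
    (hgm : ∀ k < n, Measurable (g k)) (hgi : ∀ k < n, Integrable (g k) (law μ)) (hg : ∀ k < n, ∫ η, g k η ∂(law μ) ≤ a)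
    (hf : Integrable f (law μ)) (hf0 : 0 ≤ ∫ η, f η ∂(law μ)) (hfp : Integrable fp (law μ)) (hfp0 : ∀ η, 0 ≤ fp η)
    (hff : ∀ η, f η ≤ fp η) (hfa : ∫ η, fp η ∂(law μ) ≤ a') (hAf : ∀ k < n, ∀ η ∈ A k, f η ≤ g k η - G) :
    (G - a) * (law μ).real {η | ∃ k < n, η ∈ A k} ≤ a' := by
  rw [← rev_union A n]
  exact hit_costs (μ := μ) (A := fun k => A (n - 1 - k)) (g := fun k => g (n - 1 - k))
    (S := fun k => S (n - 1 - k)) (S' := fun k => S' (n - 1 - k)) (fun k => hA _)
    (fun k hk => hAd _ (by omega)) (fun k hk => hgd _ (by omega)) (fun j k hjk hk => hS _ _ (by omega) (by omega))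
    (fun k hk => hSS _ (by omega)) (fun k hk => hgm _ (by omega)) (fun k hk => hgi _ (by omega))
    (fun k hk => hg _ (by omega)) hf hf0 hfp hfp0 hff hfa (fun k hk => hAf _ (by omega))

end Pool.Agent.W_7d29a1_h95g
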