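import Pool.Agent.W_7d29a1_F.CoreD
import Pool.Agent.W_7d29a1_F.Bridge2
import Pool.Agent.W_7d29a1_h95g.Hit
import Pool.Agent.W_7d29a1_h95g.TubeDet

/-!
The probabilistic part of the tube lemma: hits of a line (before the point: first hit, after the point: last hit)
and lucks of the points of a line.
-/

namespace Pool.Agent.W_7d29a1_h95g

open MeasureTheory ProbabilityTheory Filter Topology Pool.Agent.W_7d29a1_F

variable {μ : Measure ℝ} [IsProbabilityMeasure μ] {s : ℝ}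

/-- The mean of `X⁺`. -/
noncomputable def epp (μ : Measure ℝ) (s : ℝ) (n : ℕ) (y : ℤ) : ℝ := ∫ η, max (X μ s η 0 n y) 0 ∂(law μ)

theorem measurable_Xp (a : Pt) (n : ℕ) (y : ℤ) : Measurable fun η : Env => max (X μ s η a n y) 0 :=
  (measurable_X a n y).max measurable_const

theorem integral_Xp (a : Pt) (n : ℕ) (y : ℤ) : ∫ η, max (X μ s η a n y) 0 ∂(law μ) = epp μ s n y := by
  have h := mp_sh (μ := μ) a
  have h1 : ∫ η, max (X μ s (sh a η) 0 n y) 0 ∂(law μ) = ∫ η, max (X μ s η 0 n y) 0 ∂(law μ) := by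
    rw [← integral_map (f := fun η => max (X μ s η 0 n y) 0) h.measurable.aemeasurable
      (measurable_Xp (μ := μ) (s := s) 0 n y).aestronglyMeasurable, h.map_eq]
  simp only [X_sh, zero_add] at h1
  exact h1

theorem real_X_le (a : Pt) (n : ℕ) (y : ℤ) (c : ℝ) :
    (law μ).real {η | X μ s η a n y ≤ c} = (law μ).real {η | X μ s η 0 n y ≤ c} := by
  have h := real_sh (μ := μ) a (E := {η | X μ s η 0 n y ≤ c})
    (measurableSet_le (measurable_X (μ := μ) (s := s) 0 n y) measurable_const)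
  rw [← h]
  congr 1
  ext η
  show X μ s η a n y ≤ c ↔ X μ s (sh a η) 0 n y ≤ c
  rw [X_sh, zero_add]

theorem int_Xp (hμ : Pool.Agent.W_7d29a1_h47.EM μ) (a : Pt) {n : ℕ} {y : ℤ} (h0 : 0 ≤ y) (h1 : y ≤ n) :
    Integrable (fun η => max (X μ s η a n y) 0) (law μ) :=
  ((Sub_X a h0 h1).max (Sub.const 0)).integrable hμ

theorem int_X (hμ : Pool.Agent.W_7d29a1_h47.EM μ) (a : Pt) {n : ℕ} {y : ℤ} (h0 : 0 ≤ y) (h1 : y ≤ n) :
    Integrable (fun η => X μ s η a n y) (law μ) := (Sub_X a h0 h1).integrable hμ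

/-- Markov: `X ≤ 2 a` with probability at least `1/2`. -/
theorem half_X (hμ : Pool.Agent.W_7d29a1_h47.EM μ) (a : Pt) {n : ℕ} {y : ℤ} (h0 : 0 ≤ y) (h1 : y ≤ n) {B c : ℝ}
    (hB : epp μ s n y ≤ B) (hc : 0 < c) : 1 - B / c ≤ (law μ).real {η | X μ s η a n y ≤ c} := by
  have hm : MeasurableSet {η | X μ s η a n y ≤ c} :=
    measurableSet_le (measurable_X (μ := μ) (s := s) a n y) measurable_const
  have h2 := mul_meas_ge_le_integral_of_nonneg (μ := law μ) (f := fun η => max (X μ s η a n y) 0)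
    (Eventually.of_forall fun η => le_max_right _ _) (int_Xp hμ a h0 h1) c
  rw [integral_Xp] at h2
  have h3 : (law μ).real {η | X μ s η a n y ≤ c}ᶜ ≤ (law μ).real {η | c ≤ max (X μ s η a n y) 0} := by
    refine measureReal_mono ?_
    intro η hη
    have h4 : ¬ X μ s η a n y ≤ c := hη
    show c ≤ max (X μ s η a n y) 0
    exact (not_le.1 h4).le.trans (le_max_left _ _)
  have h4 : (law μ).real {η | c ≤ max (X μ s η a n y) 0} ≤ B / c := by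
    rw [le_div_iff₀ hc, mul_comm]
    exact h2.trans hB
  have h5 := probReal_compl_eq_one_sub (μ := law μ) hm
  linarith

/-- (a) FIRST HITS of a line `l` from `0`, continued along the line. -/
theorem hit_fwd (hμ : Pool.Agent.W_7d29a1_h47.EM μ) {l : ℤ → ℤ} (hl : IsLine l) {n N : ℕ} (hN : n ≤ N) {A Y : ℝ}
    (hA0 : 0 < A) (hA : ∀ k < n, epp μ s (N - (k + 1)) (l N - l ((k + 1 : ℕ) : ℤ)) ≤ A) :
    (law μ).real {η | ∃ k < n, Real.exp (-Y) ≤ W μ s η 0 (k + 1) (l ((k + 1 : ℕ) : ℤ))} ≤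
      2 * (law μ).real {η | X μ s η 0 N (l N) ≤ Y + 2 * A} := by
  have h := hit_events (μ := μ) (n := n)
    (A := fun k => {η | Real.exp (-Y) ≤ W μ s η 0 (k + 1) (l ((k + 1 : ℕ) : ℤ))})
    (B := fun k => {η | X μ s η (((k + 1 : ℕ) : ℤ), l ((k + 1 : ℕ) : ℤ)) (N - (k + 1)) (l N - l ((k + 1 : ℕ) : ℤ)) ≤ 2 * A})
    (S := fun k => rows 0 ((k + 1 : ℕ) : ℤ)) (S' := fun k => rows ((k + 1 : ℕ) : ℤ) N)
    (C := {η | X μ s η 0 N (l N) ≤ Y + 2 * A}) (q := 1 / 2)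
    (fun k => measurableSet_le measurable_const (measurable_W _ _ _))
    (fun k _ => measurableSet_le (measurable_X _ _ _) measurable_const)
    (measurableSet_le (measurable_X _ _ _) measurable_const) ?_ ?_ ?_ ?_ ?_ ?_
  · have h2 : (law μ).real {η | ∃ k < n, Real.exp (-Y) ≤ W μ s η 0 (k + 1) (l ((k + 1 : ℕ) : ℤ))} =
        (law μ).real {η | ∃ k < n, η ∈ (fun k => {η | Real.exp (-Y) ≤ W μ s η 0 (k + 1) (l ((k + 1 : ℕ) : ℤ))}) k} := rfl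
    rw [h2]
    linarith
  · intro k hk
    refine Dep.of_fun (f := fun η => W μ s η 0 (k + 1) (l ((k + 1 : ℕ) : ℤ))) ?_ (fun r => Real.exp (-Y) ≤ r)
    have := W_dep_rows (μ := μ) (s := s) 0 (k + 1) (l ((k + 1 : ℕ) : ℤ))
    simpa using this
  · intro k hk
    refine Dep.of_fun (f := fun η => X μ s η (((k + 1 : ℕ) : ℤ), l ((k + 1 : ℕ) : ℤ)) (N - (k + 1))
      (l N - l ((k + 1 : ℕ) : ℤ))) ?_ (fun r => r ≤ 2 * A)
    have := X_dep_rows (μ := μ) (s := s) (((k + 1 : ℕ) : ℤ), l ((k + 1 : ℕ) : ℤ)) (N - (k + 1)) (l N - l ((k + 1 : ℕ) : ℤ))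
    have e : (((k + 1 : ℕ) : ℤ)) + ((N - (k + 1) : ℕ) : ℤ) = N := by
      rw [Nat.cast_sub (by omega)]
      ring
    simp only [e] at this
    exact this
  · intro j k hjk _ p hp
    refine ⟨hp.1, hp.2.trans ?_⟩
    push_cast
    omega
  · intro k _
    exact rows_disj le_rfl
  · intro k hk
    have hr := hl.reach (show (((k + 1 : ℕ) : ℤ)) ≤ (N : ℤ) by push_cast; omega)
    have h3 := half_X (μ := μ) (s := s) hμ (((k + 1 : ℕ) : ℤ), l ((k + 1 : ℕ) : ℤ)) hr.1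
      (n := N - (k + 1)) (by rw [Nat.cast_sub (by omega)]; exact hr.2) (hA k hk) (c := 2 * A) (by linarith)
    have h4 : A / (2 * A) = 1 / 2 := by field_simp
    rw [h4] at h3
    linarith
  · rintro k hk η ⟨h3, h4⟩
    have h3' : Real.exp (-Y) ≤ W μ s η 0 (k + 1) (l ((k + 1 : ℕ) : ℤ)) := h3
    have h4' : X μ s η (((k + 1 : ℕ) : ℤ), l ((k + 1 : ℕ) : ℤ)) (N - (k + 1)) (l N - l ((k + 1 : ℕ) : ℤ)) ≤ 2 * A := h4
    have hpos : 0 < W μ s η 0 (k + 1) (l ((k + 1 : ℕ) : ℤ)) := (Real.exp_pos _).trans_le h3'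
    have hr1 : 0 ≤ l ((k + 1 : ℕ) : ℤ) ∧ l ((k + 1 : ℕ) : ℤ) ≤ ((k + 1 : ℕ) : ℤ) := by
      by_contra hc
      rw [W_eq_zero η 0 hc] at hpos
      exact lt_irrefl _ hpos
    have hr := hl.reach (show (((k + 1 : ℕ) : ℤ)) ≤ (N : ℤ) by push_cast; omega)
    have h5 := X_add_le (μ := μ) (s := s) η 0 (m := k + 1) (n := N - (k + 1)) hr1.1 hr1.2 hr.1
      (by rw [Nat.cast_sub (by omega)]; exact hr.2)
    have e1 : k + 1 + (N - (k + 1)) = N := by omega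
    have e2 : l ((k + 1 : ℕ) : ℤ) + (l N - l ((k + 1 : ℕ) : ℤ)) = l N := by ring
    have e3 : (((0 : Pt).1 + ((k + 1 : ℕ) : ℤ), (0 : Pt).2 + l ((k + 1 : ℕ) : ℤ)) : Pt) =
        (((k + 1 : ℕ) : ℤ), l ((k + 1 : ℕ) : ℤ)) := by
      simp
    rw [e1, e2, e3] at h5
    have h6 : X μ s η 0 (k + 1) (l ((k + 1 : ℕ) : ℤ)) ≤ Y := by
      unfold X
      have := Real.log_le_log (Real.exp_pos _) h3'
      rw [Real.log_exp] at this
      linarith
    show X μ s η 0 N (l N) ≤ Y + 2 * A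
    linarith

/-- (b') LUCKS of the points of a line `l` from `0`: first hit, continued along the line. -/
theorem luck_fwd (hμ : Pool.Agent.W_7d29a1_h47.EM μ) {l : ℤ → ℤ} (hl : IsLine l) {n N : ℕ} (hN : n ≤ N) {A A' G : ℝ}
    (hA : ∀ k < n, epp μ s (N - (k + 1)) (l N - l ((k + 1 : ℕ) : ℤ)) ≤ A) (hN0 : 0 ≤ l N) (hN1 : l N ≤ N)
    (hA' : epp μ s N (l N) ≤ A') :
    (G - A) * (law μ).real {η | ∃ k < n, Real.exp G ≤ W μ s η 0 (k + 1) (l ((k + 1 : ℕ) : ℤ))} ≤ A' := by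
  refine hit_costs (μ := μ) (n := n)
    (A := fun k => {η | Real.exp G ≤ W μ s η 0 (k + 1) (l ((k + 1 : ℕ) : ℤ))})
    (g := fun k η => max (X μ s η (((k + 1 : ℕ) : ℤ), l ((k + 1 : ℕ) : ℤ)) (N - (k + 1)) (l N - l ((k + 1 : ℕ) : ℤ))) 0)
    (S := fun k => rows 0 ((k + 1 : ℕ) : ℤ)) (S' := fun k => rows ((k + 1 : ℕ) : ℤ) N)
    (f := fun η => X μ s η 0 N (l N)) (fp := fun η => max (X μ s η 0 N (l N)) 0)
    (fun k => measurableSet_le measurable_const (measurable_W _ _ _)) ?_ ?_ ?_ ?_ ?_ ?_ ?_ ?_ ?_ ?_ ?_ ?_ ?_ ?_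
  · intro k hk
    refine Dep.of_fun (f := fun η => W μ s η 0 (k + 1) (l ((k + 1 : ℕ) : ℤ))) ?_ (fun r => Real.exp G ≤ r)
    have := W_dep_rows (μ := μ) (s := s) 0 (k + 1) (l ((k + 1 : ℕ) : ℤ))
    simpa using this
  · intro k hk
    have := X_dep_rows (μ := μ) (s := s) (((k + 1 : ℕ) : ℤ), l ((k + 1 : ℕ) : ℤ)) (N - (k + 1)) (l N - l ((k + 1 : ℕ) : ℤ))
    have e : (((k + 1 : ℕ) : ℤ)) + ((N - (k + 1) : ℕ) : ℤ) = N := by
      rw [Nat.cast_sub (by omega)]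
      ring
    simp only [e] at this
    intro η η' hh
    show max (X μ s η _ _ _) 0 = max (X μ s η' _ _ _) 0
    have h2 : X μ s η (((k + 1 : ℕ) : ℤ), l ((k + 1 : ℕ) : ℤ)) (N - (k + 1)) (l N - l ((k + 1 : ℕ) : ℤ)) =
      X μ s η' (((k + 1 : ℕ) : ℤ), l ((k + 1 : ℕ) : ℤ)) (N - (k + 1)) (l N - l ((k + 1 : ℕ) : ℤ)) := this hh
    rw [h2]
  · intro j k hjk _ p hp
    refine ⟨hp.1, hp.2.trans ?_⟩
    push_cast
    omega
  · intro k _
    exact rows_disj le_rfl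
  · intro k _
    exact measurable_Xp _ _ _
  · intro k hk
    have hr := hl.reach (show (((k + 1 : ℕ) : ℤ)) ≤ (N : ℤ) by push_cast; omega)
    exact int_Xp hμ _ hr.1 (by rw [Nat.cast_sub (by omega)]; exact hr.2)
  · intro k hk
    rw [integral_Xp]
    exact hA k hk
  · exact int_X hμ 0 hN0 hN1
  · rw [integral_X]
    exact e_nonneg hμ s hN0 hN1
  · exact int_Xp hμ 0 hN0 hN1
  · exact fun η => le_max_right _ _
  · exact fun η => le_max_left _ _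
  · exact hA'
  · rintro k hk η h3
    have h3' : Real.exp G ≤ W μ s η 0 (k + 1) (l ((k + 1 : ℕ) : ℤ)) := h3
    have hpos : 0 < W μ s η 0 (k + 1) (l ((k + 1 : ℕ) : ℤ)) := (Real.exp_pos _).trans_le h3'
    have hr1 : 0 ≤ l ((k + 1 : ℕ) : ℤ) ∧ l ((k + 1 : ℕ) : ℤ) ≤ ((k + 1 : ℕ) : ℤ) := by
      by_contra hc
      rw [W_eq_zero η 0 hc] at hpos
      exact lt_irrefl _ hpos
    have hr := hl.reach (show (((k + 1 : ℕ) : ℤ)) ≤ (N : ℤ) by push_cast; omega)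
    have h5 := X_add_le (μ := μ) (s := s) η 0 (m := k + 1) (n := N - (k + 1)) hr1.1 hr1.2 hr.1
      (by rw [Nat.cast_sub (by omega)]; exact hr.2)
    have e1 : k + 1 + (N - (k + 1)) = N := by omega
    have e2 : l ((k + 1 : ℕ) : ℤ) + (l N - l ((k + 1 : ℕ) : ℤ)) = l N := by ring
    have e3 : (((0 : Pt).1 + ((k + 1 : ℕ) : ℤ), (0 : Pt).2 + l ((k + 1 : ℕ) : ℤ)) : Pt) =
        (((k + 1 : ℕ) : ℤ), l ((k + 1 : ℕ) : ℤ)) := by
      simp
    rw [e1, e2, e3] at h5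
    have h6 : X μ s η 0 (k + 1) (l ((k + 1 : ℕ) : ℤ)) ≤ -G := by
      unfold X
      have := Real.log_le_log (Real.exp_pos _) h3'
      rw [Real.log_exp] at this
      linarith
    show X μ s η 0 N (l N) ≤ max (X μ s η _ _ _) 0 - G
    have := le_max_left (X μ s η (((k + 1 : ℕ) : ℤ), l ((k + 1 : ℕ) : ℤ)) (N - (k + 1)) (l N - l ((k + 1 : ℕ) : ℤ))) 0
    linarith

/-- (c) LAST HITS of a line `l` before the end point `z = (n, y)`, started on the line. -/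
theorem hit_bwd (hμ : Pool.Agent.W_7d29a1_h47.EM μ) {l : ℤ → ℤ} (hl : IsLine l) {n M : ℕ} {y : ℤ} {A Y : ℝ}
    (hA0 : 0 < A) (hA : ∀ k < n, epp μ s (M + (k + 1)) (l ((k + 1 : ℕ) : ℤ) - l (-M)) ≤ A) :
    (law μ).real {η | ∃ k < n, Real.exp (-Y) ≤
        W μ s η (((k + 1 : ℕ) : ℤ), l ((k + 1 : ℕ) : ℤ)) (n - (k + 1)) (y - l ((k + 1 : ℕ) : ℤ))} ≤
      2 * (law μ).real {η | X μ s η 0 (M + n) (y - l (-M)) ≤ Y + 2 * A} := by
  rw [← real_X_le (-(M : ℤ), l (-M))]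
  have h := hit_events' (μ := μ) (n := n)
    (A := fun k => {η | Real.exp (-Y) ≤
      W μ s η (((k + 1 : ℕ) : ℤ), l ((k + 1 : ℕ) : ℤ)) (n - (k + 1)) (y - l ((k + 1 : ℕ) : ℤ))})
    (B := fun k => {η | X μ s η (-(M : ℤ), l (-M)) (M + (k + 1)) (l ((k + 1 : ℕ) : ℤ) - l (-M)) ≤ 2 * A})
    (S := fun k => rows ((k + 1 : ℕ) : ℤ) (max (n : ℤ) ((k + 1 : ℕ) : ℤ))) (S' := fun k => rows (-(M : ℤ)) ((k + 1 : ℕ) : ℤ))
    (C := {η | X μ s η (-(M : ℤ), l (-M)) (M + n) (y - l (-M)) ≤ Y + 2 * A}) (q := 1 / 2)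
    (fun k => measurableSet_le measurable_const (measurable_W _ _ _))
    (fun k _ => measurableSet_le (measurable_X _ _ _) measurable_const)
    (measurableSet_le (measurable_X _ _ _) measurable_const) ?_ ?_ ?_ ?_ ?_ ?_
  · have h2 : (law μ).real {η | ∃ k < n, Real.exp (-Y) ≤
        W μ s η (((k + 1 : ℕ) : ℤ), l ((k + 1 : ℕ) : ℤ)) (n - (k + 1)) (y - l ((k + 1 : ℕ) : ℤ))} =
        (law μ).real {η | ∃ k < n, η ∈ (fun k => {η | Real.exp (-Y) ≤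
        W μ s η (((k + 1 : ℕ) : ℤ), l ((k + 1 : ℕ) : ℤ)) (n - (k + 1)) (y - l ((k + 1 : ℕ) : ℤ))}) k} := rfl
    rw [h2]
    linarith
  · intro k hk
    refine Dep.of_fun (f := fun η => W μ s η (((k + 1 : ℕ) : ℤ), l ((k + 1 : ℕ) : ℤ)) (n - (k + 1))
      (y - l ((k + 1 : ℕ) : ℤ))) ?_ (fun r => Real.exp (-Y) ≤ r)
    have := W_dep_rows (μ := μ) (s := s) (((k + 1 : ℕ) : ℤ), l ((k + 1 : ℕ) : ℤ)) (n - (k + 1)) (y - l ((k + 1 : ℕ) : ℤ))
    have e : (((k + 1 : ℕ) : ℤ)) + ((n - (k + 1) : ℕ) : ℤ) = max (n : ℤ) ((k + 1 : ℕ) : ℤ) := by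
      rw [Nat.cast_sub (by omega), max_eq_left (by push_cast; omega)]
      ring
    simp only [e] at this
    exact this
  · intro k hk
    refine Dep.of_fun (f := fun η => X μ s η (-(M : ℤ), l (-M)) (M + (k + 1)) (l ((k + 1 : ℕ) : ℤ) - l (-M))) ?_
      (fun r => r ≤ 2 * A)
    have := X_dep_rows (μ := μ) (s := s) (-(M : ℤ), l (-M)) (M + (k + 1)) (l ((k + 1 : ℕ) : ℤ) - l (-M))
    have e : -(M : ℤ) + ((M + (k + 1) : ℕ) : ℤ) = ((k + 1 : ℕ) : ℤ) := by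
      push_cast
      ring
    simp only [e] at this
    exact this
  · intro j k hjk hk p hp
    obtain ⟨h1, h2⟩ := hp
    refine ⟨?_, ?_⟩
    · push_cast at h1 ⊢
      omega
    · push_cast at h2 ⊢
      omega
  · intro k _
    exact (rows_disj le_rfl).symm
  · intro k hk
    have hr := hl.reach (show (-(M : ℤ)) ≤ (((k + 1 : ℕ) : ℤ)) by push_cast; omega)
    have h3 := half_X (μ := μ) (s := s) hμ (-(M : ℤ), l (-M)) hr.1
      (n := M + (k + 1)) (by push_cast at hr ⊢; omega) (hA k hk) (c := 2 * A) (by linarith)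
    have h4 : A / (2 * A) = 1 / 2 := by field_simp
    rw [h4] at h3
    linarith
  · rintro k hk η ⟨h3, h4⟩
    have h3' : Real.exp (-Y) ≤ W μ s η (((k + 1 : ℕ) : ℤ), l ((k + 1 : ℕ) : ℤ)) (n - (k + 1)) (y - l ((k + 1 : ℕ) : ℤ)) := h3
    have h4' : X μ s η (-(M : ℤ), l (-M)) (M + (k + 1)) (l ((k + 1 : ℕ) : ℤ) - l (-M)) ≤ 2 * A := h4
    have hpos : 0 < W μ s η (((k + 1 : ℕ) : ℤ), l ((k + 1 : ℕ) : ℤ)) (n - (k + 1)) (y - l ((k + 1 : ℕ) : ℤ)) :=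
      (Real.exp_pos _).trans_le h3'
    have hr1 : 0 ≤ y - l ((k + 1 : ℕ) : ℤ) ∧ y - l ((k + 1 : ℕ) : ℤ) ≤ ((n - (k + 1) : ℕ) : ℤ) := by
      by_contra hc
      rw [W_eq_zero η _ hc] at hpos
      exact lt_irrefl _ hpos
    have hr := hl.reach (show (-(M : ℤ)) ≤ (((k + 1 : ℕ) : ℤ)) by push_cast; omega)
    have h5 := X_add_le (μ := μ) (s := s) η (-(M : ℤ), l (-M)) (m := M + (k + 1)) (n := n - (k + 1)) hr.1
      (by push_cast at hr ⊢; omega) hr1.1 hr1.2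
    have e1 : M + (k + 1) + (n - (k + 1)) = M + n := by omega
    have e2 : l ((k + 1 : ℕ) : ℤ) - l (-M) + (y - l ((k + 1 : ℕ) : ℤ)) = y - l (-M) := by ring
    have e3 : ((-(M : ℤ) + ((M + (k + 1) : ℕ) : ℤ), l (-M) + (l ((k + 1 : ℕ) : ℤ) - l (-M))) : Pt) =
        (((k + 1 : ℕ) : ℤ), l ((k + 1 : ℕ) : ℤ)) := by
      ext
      · push_cast
        ring
      · push_cast
        ring
    simp only [e1, e2, e3] at h5
    have h6 : X μ s η (((k + 1 : ℕ) : ℤ), l ((k + 1 : ℕ) : ℤ)) (n - (k + 1)) (y - l ((k + 1 : ℕ) : ℤ)) ≤ Y := by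
      unfold X
      have := Real.log_le_log (Real.exp_pos _) h3'
      rw [Real.log_exp] at this
      linarith
    show X μ s η (-(M : ℤ), l (-M)) (M + n) (y - l (-M)) ≤ Y + 2 * A
    linarith

/-- (b) LUCKS from the points of a line `l` to the end point `z = (n, y)`: last hit, started on the line. -/
theorem luck_bwd (hμ : Pool.Agent.W_7d29a1_h47.EM μ) {l : ℤ → ℤ} (hl : IsLine l) {n M : ℕ} {y : ℤ} {A A' G : ℝ}
    (hA : ∀ k < n, epp μ s (M + (k + 1)) (l ((k + 1 : ℕ) : ℤ) - l (-M)) ≤ A) (hN0 : 0 ≤ y - l (-M))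
    (hN1 : y - l (-M) ≤ ((M + n : ℕ) : ℤ)) (hA' : epp μ s (M + n) (y - l (-M)) ≤ A') :
    (G - A) * (law μ).real {η | ∃ k < n, Real.exp G ≤
      W μ s η (((k + 1 : ℕ) : ℤ), l ((k + 1 : ℕ) : ℤ)) (n - (k + 1)) (y - l ((k + 1 : ℕ) : ℤ))} ≤ A' := by
  refine hit_costs' (μ := μ) (n := n)
    (A := fun k => {η | Real.exp G ≤
      W μ s η (((k + 1 : ℕ) : ℤ), l ((k + 1 : ℕ) : ℤ)) (n - (k + 1)) (y - l ((k + 1 : ℕ) : ℤ))})
    (g := fun k η => max (X μ s η (-(M : ℤ), l (-M)) (M + (k + 1)) (l ((k + 1 : ℕ) : ℤ) - l (-M))) 0)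
    (S := fun k => rows ((k + 1 : ℕ) : ℤ) (max (n : ℤ) ((k + 1 : ℕ) : ℤ))) (S' := fun k => rows (-(M : ℤ)) ((k + 1 : ℕ) : ℤ))
    (f := fun η => X μ s η (-(M : ℤ), l (-M)) (M + n) (y - l (-M)))
    (fp := fun η => max (X μ s η (-(M : ℤ), l (-M)) (M + n) (y - l (-M))) 0)
    (fun k => measurableSet_le measurable_const (measurable_W _ _ _)) ?_ ?_ ?_ ?_ ?_ ?_ ?_ ?_ ?_ ?_ ?_ ?_ ?_ ?_
  · intro k hk
    refine Dep.of_fun (f := fun η => W μ s η (((k + 1 : ℕ) : ℤ), l ((k + 1 : ℕ) : ℤ)) (n - (k + 1))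
      (y - l ((k + 1 : ℕ) : ℤ))) ?_ (fun r => Real.exp G ≤ r)
    have := W_dep_rows (μ := μ) (s := s) (((k + 1 : ℕ) : ℤ), l ((k + 1 : ℕ) : ℤ)) (n - (k + 1)) (y - l ((k + 1 : ℕ) : ℤ))
    have e : (((k + 1 : ℕ) : ℤ)) + ((n - (k + 1) : ℕ) : ℤ) = max (n : ℤ) ((k + 1 : ℕ) : ℤ) := by
      rw [Nat.cast_sub (by omega), max_eq_left (by push_cast; omega)]
      ring
    simp only [e] at this
    exact this
  · intro k hk
    have := X_dep_rows (μ := μ) (s := s) (-(M : ℤ), l (-M)) (M + (k + 1)) (l ((k + 1 : ℕ) : ℤ) - l (-M))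
    have e : -(M : ℤ) + ((M + (k + 1) : ℕ) : ℤ) = ((k + 1 : ℕ) : ℤ) := by
      push_cast
      ring
    simp only [e] at this
    intro η η' hh
    show max (X μ s η _ _ _) 0 = max (X μ s η' _ _ _) 0
    have h2 : X μ s η (-(M : ℤ), l (-M)) (M + (k + 1)) (l ((k + 1 : ℕ) : ℤ) - l (-M)) =
      X μ s η' (-(M : ℤ), l (-M)) (M + (k + 1)) (l ((k + 1 : ℕ) : ℤ) - l (-M)) := this hh
    rw [h2]
  · intro j k hjk hk p hp
    obtain ⟨h1, h2⟩ := hp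
    refine ⟨?_, ?_⟩
    · push_cast at h1 ⊢
      omega
    · push_cast at h2 ⊢
      omega
  · intro k _
    exact (rows_disj le_rfl).symm
  · intro k _
    exact measurable_Xp _ _ _
  · intro k hk
    have hr := hl.reach (show (-(M : ℤ)) ≤ (((k + 1 : ℕ) : ℤ)) by push_cast; omega)
    exact int_Xp hμ _ hr.1 (by push_cast at hr ⊢; omega)
  · intro k hk
    rw [integral_Xp]
    exact hA k hk
  · exact int_X hμ _ hN0 hN1
  · rw [integral_X]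
    exact e_nonneg hμ s hN0 hN1
  · exact int_Xp hμ _ hN0 hN1
  · exact fun η => le_max_right _ _
  · exact fun η => le_max_left _ _
  · rw [integral_Xp]
    exact hA'
  · rintro k hk η h3
    have h3' : Real.exp G ≤ W μ s η (((k + 1 : ℕ) : ℤ), l ((k + 1 : ℕ) : ℤ)) (n - (k + 1)) (y - l ((k + 1 : ℕ) : ℤ)) := h3
    have hpos : 0 < W μ s η (((k + 1 : ℕ) : ℤ), l ((k + 1 : ℕ) : ℤ)) (n - (k + 1)) (y - l ((k + 1 : ℕ) : ℤ)) :=
      (Real.exp_pos _).trans_le h3'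
    have hr1 : 0 ≤ y - l ((k + 1 : ℕ) : ℤ) ∧ y - l ((k + 1 : ℕ) : ℤ) ≤ ((n - (k + 1) : ℕ) : ℤ) := by
      by_contra hc
      rw [W_eq_zero η _ hc] at hpos
      exact lt_irrefl _ hpos
    have hr := hl.reach (show (-(M : ℤ)) ≤ (((k + 1 : ℕ) : ℤ)) by push_cast; omega)
    have h5 := X_add_le (μ := μ) (s := s) η (-(M : ℤ), l (-M)) (m := M + (k + 1)) (n := n - (k + 1)) hr.1
      (by push_cast at hr ⊢; omega) hr1.1 hr1.2
    have e1 : M + (k + 1) + (n - (k + 1)) = M + n := by omega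
    have e2 : l ((k + 1 : ℕ) : ℤ) - l (-M) + (y - l ((k + 1 : ℕ) : ℤ)) = y - l (-M) := by ring
    have e3 : ((-(M : ℤ) + ((M + (k + 1) : ℕ) : ℤ), l (-M) + (l ((k + 1 : ℕ) : ℤ) - l (-M))) : Pt) =
        (((k + 1 : ℕ) : ℤ), l ((k + 1 : ℕ) : ℤ)) := by
      ext
      · push_cast
        ring
      · push_cast
        ring
    simp only [e1, e2, e3] at h5
    have h6 : X μ s η (((k + 1 : ℕ) : ℤ), l ((k + 1 : ℕ) : ℤ)) (n - (k + 1)) (y - l ((k + 1 : ℕ) : ℤ)) ≤ -G := by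
      unfold X
      have := Real.log_le_log (Real.exp_pos _) h3'
      rw [Real.log_exp] at this
      linarith
    show X μ s η (-(M : ℤ), l (-M)) (M + n) (y - l (-M)) ≤
      max (X μ s η (-(M : ℤ), l (-M)) (M + (k + 1)) (l ((k + 1 : ℕ) : ℤ) - l (-M))) 0 - G
    have := le_max_left (X μ s η (-(M : ℤ), l (-M)) (M + (k + 1)) (l ((k + 1 : ℕ) : ℤ) - l (-M))) 0
    linarith

end Pool.Agent.W_7d29a1_h95g
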